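import Mathlib

/-!
# A regularity-lemma bound for the non-redundancy problem
-/

set_option linter.unusedSectionVars false

open Finset

namespace NRDProblem

section Comb

variable {V ι : Type} [Fintype V] [DecidableEq V] [Fintype ι] [DecidableEq ι]

/-- the bipartite graph on `V ⊕ V` whose edges are `(α c, β c)`. -/
def gr (α β : ι → V) : SimpleGraph (V ⊕ V) where
  Adj x y := (∃ c, x = Sum.inl (α c) ∧ y = Sum.inr (β c)) ∨
    (∃ c, y = Sum.inl (α c) ∧ x = Sum.inr (β c))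
  symm := ⟨fun x y h => by
    rcases h with h | h
    · exact Or.inr h
    · exact Or.inl h⟩
  loopless := ⟨fun x h => by
    rcases h with ⟨c, h1, h2⟩ | ⟨c, h1, h2⟩
    · rw [h1] at h2; cases h2
    · rw [h1] at h2; cases h2⟩

lemma gr_adj_iff (α β : ι → V) (x y : V ⊕ V) : (gr α β).Adj x y ↔
    ((∃ c, x = Sum.inl (α c) ∧ y = Sum.inr (β c)) ∨
    (∃ c, y = Sum.inl (α c) ∧ x = Sum.inr (β c))) := Iff.rfl

lemma gr_adj (α β : ι → V) (c : ι) : (gr α β).Adj (Sum.inl (α c)) (Sum.inr (β c)) :=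
  Or.inl ⟨c, rfl, rfl⟩

lemma gr_adj_lr {α β : ι → V} {x y : V} (h : (gr α β).Adj (Sum.inl x) (Sum.inr y)) :
    ∃ c, α c = x ∧ β c = y := by
  rcases h with ⟨c, h1, h2⟩ | ⟨c, h1, h2⟩
  · exact ⟨c, (Sum.inl.inj h1).symm, (Sum.inr.inj h2).symm⟩
  · cases h1

/-- fibre counting with a real bound -/
lemma card_le_of_fibers {κ : Type} [DecidableEq κ] (S : Finset ι) (T : Finset κ) (f : ι → κ)
    (hf : ∀ a ∈ S, f a ∈ T) (γ : ℝ) (hγ : ∀ a ∈ S, ((#{b ∈ S | f b = f a} : ℕ) : ℝ) ≤ γ)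
    (hγ0 : 0 ≤ γ) : (#S : ℝ) ≤ #T * γ := by
  rw [Finset.card_eq_sum_card_fiberwise (f := f) (t := T) (fun a ha => hf a ha)]
  push_cast
  calc (∑ b ∈ T, (#{a ∈ S | f a = b} : ℝ)) ≤ ∑ _b ∈ T, γ := by
        apply Finset.sum_le_sum
        intro b _
        by_cases h : ({a ∈ S | f a = b} : Finset ι).Nonempty
        · obtain ⟨a, ha⟩ := h
          rw [Finset.mem_filter] at ha
          have := hγ a ha.1
          rw [ha.2] at this
          exact this
        · rw [Finset.not_nonempty_iff_eq_empty] at h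
          rw [h]
          simpa using hγ0
    _ = #T * γ := by rw [Finset.sum_const, nsmul_eq_mul]

open Classical in
/-- few clauses have their edge outside the reduced graph -/
lemma card_unreduced_lt [Nonempty V] (α β : ι → V)
    (I1 : ∀ c d, α c = α d → β c = β d → c = d)
    (Q : Finpartition (univ : Finset (V ⊕ V))) (ε : ℝ) (hε : 0 < ε)
    (hQ1 : Q.IsEquipartition) (hQ2 : 4 / ε ≤ #Q.parts)
    (hQ3 : Q.IsUniform (gr α β) (ε / 8)) :
    (#{c : ι | ¬ ((gr α β).regularityReduced Q (ε / 8) (ε / 4)).Adj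
      (Sum.inl (α c)) (Sum.inr (β c))} : ℝ) < ε * (2 * Fintype.card V : ℝ) ^ 2 := by
  have key := SimpleGraph.regularityReduced_edges_card_aux (G := gr α β) hε hQ1 hQ3 hQ2
  have hsub : ((gr α β).regularityReduced Q (ε / 8) (ε / 4)).edgeFinset ⊆ (gr α β).edgeFinset :=
    SimpleGraph.edgeFinset_mono SimpleGraph.regularityReduced_le
  have hcard : #{c : ι | ¬ ((gr α β).regularityReduced Q (ε / 8) (ε / 4)).Adj
      (Sum.inl (α c)) (Sum.inr (β c))} ≤ #((gr α β).edgeFinset \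
      ((gr α β).regularityReduced Q (ε / 8) (ε / 4)).edgeFinset) := by
    apply Finset.card_le_card_of_injOn (fun c => s(Sum.inl (α c), Sum.inr (β c)))
    · intro c hc
      rw [Finset.mem_coe, Finset.mem_filter] at hc
      rw [Finset.mem_coe, Finset.mem_sdiff, SimpleGraph.mem_edgeFinset, SimpleGraph.mem_edgeFinset,
        SimpleGraph.mem_edgeSet, SimpleGraph.mem_edgeSet]
      exact ⟨gr_adj α β c, hc.2⟩
    · intro c _ d _ h
      simp only [Sym2.eq_iff] at h
      rcases h with ⟨h1, h2⟩ | ⟨h1, h2⟩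
      · exact I1 c d (Sum.inl.inj h1) (Sum.inr.inj h2)
      · cases h1
  rw [Finset.card_sdiff_of_subset hsub] at hcard
  have h2 := Finset.card_le_card hsub
  have h3 : (#{c : ι | ¬ ((gr α β).regularityReduced Q (ε / 8) (ε / 4)).Adj
      (Sum.inl (α c)) (Sum.inr (β c))} : ℝ) ≤ (#((gr α β).edgeFinset) : ℝ) -
      (#((gr α β).regularityReduced Q (ε / 8) (ε / 4)).edgeFinset : ℝ) := by
    rw [← Nat.cast_sub h2]
    exact_mod_cast hcard
  have h4 : (Fintype.card (V ⊕ V) : ℝ) = 2 * Fintype.card V := by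
    rw [Fintype.card_sum]; push_cast; ring
  push_cast at key
  rw [h4] at key
  linarith

open Classical in
/-- Few clauses `d` have a sparse star, given `p : ι → V ⊕ V` and `ℓ : ι → V` -/
lemma card_sparse_le (Q : Finpartition (univ : Finset (V ⊕ V))) (p : ι → V ⊕ V) (l : ι → V)
    (γ : ℝ) (hγ : 0 ≤ γ) :
    (#{d : ι | (#{c : ι | l c = l d ∧ p c ∈ Q.part (p d)} : ℝ) < γ} : ℝ) ≤
      (Fintype.card V : ℝ) * #Q.parts * γ := by
  have := card_le_of_fibers (ι := ι) (κ := V × Finset (V ⊕ V))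
    ({d : ι | (#{c : ι | l c = l d ∧ p c ∈ Q.part (p d)} : ℝ) < γ} : Finset ι)
    ((univ : Finset V) ×ˢ Q.parts) (fun d => (l d, Q.part (p d)))
    (by
      intro a _
      rw [Finset.mem_product]
      exact ⟨Finset.mem_univ _, Q.part_mem.2 (Finset.mem_univ _)⟩) γ
    (by
      intro a ha
      rw [Finset.mem_filter] at ha
      refine le_trans ?_ ha.2.le
      rw [Nat.cast_le]
      apply Finset.card_le_card
      intro b hb
      rw [Finset.mem_filter] at hb
      rw [Finset.mem_filter]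
      simp only [Prod.mk.injEq] at hb
      refine ⟨Finset.mem_univ _, hb.2.1, ?_⟩
      rw [← hb.2.2]
      exact Q.mem_part (Finset.mem_univ _)) hγ
  rw [Finset.card_product] at this
  push_cast at this
  simpa using this

open Classical in
/-- The contradiction at a surviving clause `d`. -/
lemma survivor_bound (α β l m : ι → V)
    (I2 : ∀ c d, α c = α d → l c = l d → c = d)
    (I3 : ∀ c d, β c = β d → m c = m d → c = d)
    (I4 : ∀ c c' c'' d, α c' = α c → c' ≠ c → β c'' = β c → c'' ≠ c →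
      l d = l c' → m d = m c'' → False)
    (d : ι) (U W : Finset (V ⊕ V)) (e γ : ℝ) (he : 0 < e) (hγ : 0 ≤ γ)
    (hunif : (gr α β).IsUniform e U W) (hdens : 2 * e ≤ (gr α β).edgeDensity U W)
    (hU : (#U : ℝ) * e ≤ γ) (hW : (#W : ℝ) * e ≤ γ)
    (hA : γ ≤ (#{c : ι | l c = l d ∧ (Sum.inl (α c) : V ⊕ V) ∈ U} : ℝ))
    (hB : γ ≤ (#{c : ι | m c = m d ∧ (Sum.inr (β c) : V ⊕ V) ∈ W} : ℝ)) :
    e * γ ^ 2 ≤ 2 * Fintype.card V := by
  set KA : Finset ι := {c : ι | l c = l d ∧ (Sum.inl (α c) : V ⊕ V) ∈ U} with hKA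
  set KB : Finset ι := {c : ι | m c = m d ∧ (Sum.inr (β c) : V ⊕ V) ∈ W} with hKB
  set A : Finset (V ⊕ V) := KA.image (fun c => Sum.inl (α c)) with hAdef
  set B : Finset (V ⊕ V) := KB.image (fun c => Sum.inr (β c)) with hBdef
  have hAcard : #A = #KA := by
    apply Finset.card_image_of_injOn
    intro c hc c' hc' h
    rw [Finset.mem_coe, hKA, Finset.mem_filter] at hc hc'
    exact I2 c c' (Sum.inl.inj h) (hc.2.1.trans hc'.2.1.symm)
  have hBcard : #B = #KB := by
    apply Finset.card_image_of_injOn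
    intro c hc c' hc' h
    rw [Finset.mem_coe, hKB, Finset.mem_filter] at hc hc'
    exact I3 c c' (Sum.inr.inj h) (hc.2.1.trans hc'.2.1.symm)
  have hAU : A ⊆ U := by
    intro x hx
    rw [hAdef, Finset.mem_image] at hx
    obtain ⟨c, hc, rfl⟩ := hx
    rw [hKA, Finset.mem_filter] at hc
    exact hc.2.2
  have hBW : B ⊆ W := by
    intro x hx
    rw [hBdef, Finset.mem_image] at hx
    obtain ⟨c, hc, rfl⟩ := hx
    rw [hKB, Finset.mem_filter] at hc
    exact hc.2.2
  have hAγ : γ ≤ (#A : ℝ) := by rw [hAcard]; exact hA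
  have hBγ : γ ≤ (#B : ℝ) := by rw [hBcard]; exact hB
  have hu := hunif hAU hBW (hU.trans hAγ) (hW.trans hBγ)
  rw [abs_lt] at hu
  have hd : e ≤ (gr α β).edgeDensity A B := by linarith [hu.1]
  -- upper bound for the number of edges between `A` and `B`
  have hinter : #((gr α β).interedges A B) ≤ 2 * Fintype.card V := by
    have hsub : (gr α β).interedges A B ⊆
        (({c : ι | l c = l d} : Finset ι) ∪ ({c : ι | m c = m d} : Finset ι)).image
          (fun c => ((Sum.inl (α c) : V ⊕ V), (Sum.inr (β c) : V ⊕ V))) := by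
      rintro ⟨x, y⟩ hxy
      rw [SimpleGraph.mk_mem_interedges_iff] at hxy
      obtain ⟨hx, hy, hadj⟩ := hxy
      rw [hAdef, Finset.mem_image] at hx
      rw [hBdef, Finset.mem_image] at hy
      obtain ⟨c', hc', rfl⟩ := hx
      obtain ⟨c'', hc'', rfl⟩ := hy
      obtain ⟨c, hc1, hc2⟩ := gr_adj_lr hadj
      rw [hKA, Finset.mem_filter] at hc'
      rw [hKB, Finset.mem_filter] at hc''
      rw [Finset.mem_image]
      refine ⟨c, ?_, by rw [hc1, hc2]⟩
      by_cases h1 : c' = c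
      · rw [Finset.mem_union]; left
        rw [Finset.mem_filter]
        exact ⟨Finset.mem_univ _, h1 ▸ hc'.2.1⟩
      by_cases h2 : c'' = c
      · rw [Finset.mem_union]; right
        rw [Finset.mem_filter]
        exact ⟨Finset.mem_univ _, h2 ▸ hc''.2.1⟩
      exact (I4 c c' c'' d hc1.symm h1 hc2.symm h2 hc'.2.1.symm hc''.2.1.symm).elim
    refine (Finset.card_le_card hsub).trans (Finset.card_image_le.trans
      ((Finset.card_union_le _ _).trans ?_))
    have h1 : #({c : ι | l c = l d} : Finset ι) ≤ Fintype.card V := by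
      apply Finset.card_le_card_of_injOn α (fun _ _ => Finset.mem_coe.2 (Finset.mem_univ _))
      intro c hc c' hc' h
      rw [Finset.mem_coe, Finset.mem_filter] at hc hc'
      exact I2 c c' h (hc.2.trans hc'.2.symm)
    have h2 : #({c : ι | m c = m d} : Finset ι) ≤ Fintype.card V := by
      apply Finset.card_le_card_of_injOn β (fun _ _ => Finset.mem_coe.2 (Finset.mem_univ _))
      intro c hc c' hc' h
      rw [Finset.mem_coe, Finset.mem_filter] at hc hc'
      exact I3 c c' h (hc.2.trans hc'.2.symm)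
    omega
  have hinter' : (#((gr α β).interedges A B) : ℝ) ≤ 2 * Fintype.card V := by exact_mod_cast hinter
  refine le_trans ?_ hinter'
  rcases eq_or_lt_of_le hγ with h0 | h0
  · rw [← h0]
    simp
  have hA0 : (0 : ℝ) < #A := h0.trans_le hAγ
  have hB0 : (0 : ℝ) < #B := h0.trans_le hBγ
  have hde : ((gr α β).edgeDensity A B : ℝ) = (#((gr α β).interedges A B) : ℝ) / (#A * #B) := by
    rw [SimpleGraph.edgeDensity_def]
    push_cast
    rfl
  rw [hde, le_div_iff₀ (by positivity)] at hd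
  refine le_trans ?_ hd
  have : γ * γ ≤ (#A : ℝ) * #B := mul_le_mul hAγ hBγ hγ hA0.le
  nlinarith

end Comb

open Classical in
/-- **The combinatorial bound**: conditions (I1)-(I4) force `|ι| = o(|V|²)`. -/
theorem comb_bound (ε : ℝ) (hε : 0 < ε) : ∃ n0 : ℕ, ∀ (V ι : Type) [Fintype V] [DecidableEq V]
    [Fintype ι] [DecidableEq ι] (α β l m : ι → V),
    (∀ c d, α c = α d → β c = β d → c = d) →
    (∀ c d, α c = α d → l c = l d → c = d) →
    (∀ c d, β c = β d → m c = m d → c = d) →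
    (∀ c c' c'' d, α c' = α c → c' ≠ c → β c'' = β c → c'' ≠ c →
      l d = l c' → m d = m c'' → False) →
    n0 ≤ Fintype.card V → (Fintype.card ι : ℝ) ≤ ε * (Fintype.card V : ℝ) ^ 2 := by
  set L : ℕ := ⌈4 / (ε / 8)⌉₊ with hL
  set M : ℕ := SzemerediRegularity.bound (ε / 8 / 8) L with hM
  refine ⟨max (max L 1) (⌈512 * (M : ℝ) ^ 2 / (ε / 8 / 8 * ε ^ 2)⌉₊ + 1), ?_⟩
  intro V ι _ _ _ _ α β l m I1 I2 I3 I4 hn
  have hnL : L ≤ Fintype.card V := (le_max_left _ _).trans ((le_max_left _ _).trans hn)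
  have hn1 : 1 ≤ Fintype.card V := (le_max_right _ _).trans ((le_max_left _ _).trans hn)
  have hnB : 512 * (M : ℝ) ^ 2 / (ε / 8 / 8 * ε ^ 2) < (Fintype.card V : ℝ) := by
    refine (Nat.le_ceil _).trans_lt ?_
    exact_mod_cast (le_max_right _ _).trans hn
  have : Nonempty V := Fintype.card_pos_iff.1 hn1
  by_contra hcon
  push Not at hcon
  have hLN : L ≤ Fintype.card (V ⊕ V) := by
    rw [Fintype.card_sum]; omega
  obtain ⟨Q, hQ1, hQL, hQM, hQU⟩ := szemeredi_regularity (gr α β)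
    (by positivity : 0 < ε / 8 / 8) hLN
  have hL4 : 4 / (ε / 8) ≤ (#Q.parts : ℝ) := (Nat.le_ceil _).trans (by exact_mod_cast hQL)
  have hk0 : (0 : ℝ) < #Q.parts := lt_of_lt_of_le (by positivity) hL4
  have hn0 : (0 : ℝ) < Fintype.card V := by exact_mod_cast hn1
  set n : ℝ := (Fintype.card V : ℝ) with hndef
  set k : ℝ := (#Q.parts : ℝ) with hkdef
  set γ : ℝ := ε * n / (16 * k) with hγ
  have hγ0 : 0 < γ := by positivity
  have hbad := card_unreduced_lt α β I1 Q (ε / 8) (by positivity) hQ1 hL4 hQU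
  have hD1 := card_sparse_le Q (fun c => (Sum.inl (α c) : V ⊕ V)) l γ hγ0.le
  have hD2 := card_sparse_le Q (fun c => (Sum.inr (β c) : V ⊕ V)) m γ hγ0.le
  -- a surviving clause
  have hsurv : ∃ d : ι, ((gr α β).regularityReduced Q (ε / 8 / 8) (ε / 8 / 4)).Adj
      (Sum.inl (α d)) (Sum.inr (β d)) ∧
      γ ≤ (#{c : ι | l c = l d ∧ (Sum.inl (α c) : V ⊕ V) ∈ Q.part (Sum.inl (α d))} : ℝ) ∧
      γ ≤ (#{c : ι | m c = m d ∧ (Sum.inr (β c) : V ⊕ V) ∈ Q.part (Sum.inr (β d))} : ℝ) := by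
    by_contra hno
    push Not at hno
    have hcover : (univ : Finset ι) ⊆
        ({c : ι | ¬ ((gr α β).regularityReduced Q (ε / 8 / 8) (ε / 8 / 4)).Adj
          (Sum.inl (α c)) (Sum.inr (β c))} : Finset ι) ∪
        (({d : ι | (#{c : ι | l c = l d ∧ (Sum.inl (α c) : V ⊕ V) ∈
          Q.part (Sum.inl (α d))} : ℝ) < γ} : Finset ι) ∪
        ({d : ι | (#{c : ι | m c = m d ∧ (Sum.inr (β c) : V ⊕ V) ∈
          Q.part (Sum.inr (β d))} : ℝ) < γ} : Finset ι)) := by
      intro d _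
      rw [Finset.mem_union, Finset.mem_union, Finset.mem_filter, Finset.mem_filter,
        Finset.mem_filter]
      by_cases h1 : ((gr α β).regularityReduced Q (ε / 8 / 8) (ε / 8 / 4)).Adj
        (Sum.inl (α d)) (Sum.inr (β d))
      · by_cases h2 : γ ≤ (#{c : ι | l c = l d ∧ (Sum.inl (α c) : V ⊕ V) ∈
          Q.part (Sum.inl (α d))} : ℝ)
        · exact Or.inr (Or.inr ⟨Finset.mem_univ _, hno d h1 h2⟩)
        · exact Or.inr (Or.inl ⟨Finset.mem_univ _, not_le.1 h2⟩)
      · exact Or.inl ⟨Finset.mem_univ _, h1⟩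
    have h1 := (Finset.card_le_card hcover).trans ((Finset.card_union_le _ _).trans
      (Nat.add_le_add_left (Finset.card_union_le _ _) _))
    rw [Finset.card_univ] at h1
    have h2 : (Fintype.card ι : ℝ) ≤
        (#({c : ι | ¬ ((gr α β).regularityReduced Q (ε / 8 / 8) (ε / 8 / 4)).Adj
          (Sum.inl (α c)) (Sum.inr (β c))} : Finset ι) : ℝ) +
        ((#({d : ι | (#{c : ι | l c = l d ∧ (Sum.inl (α c) : V ⊕ V) ∈
          Q.part (Sum.inl (α d))} : ℝ) < γ} : Finset ι) : ℝ) +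
        (#({d : ι | (#{c : ι | m c = m d ∧ (Sum.inr (β c) : V ⊕ V) ∈
          Q.part (Sum.inr (β d))} : ℝ) < γ} : Finset ι) : ℝ)) := by
      exact_mod_cast h1
    have h3 : n * k * γ = ε * n ^ 2 / 16 := by
      rw [hγ]; field_simp
    rw [h3] at hD1 hD2
    have h4 : ε / 8 * (2 * n) ^ 2 = ε * n ^ 2 / 2 := by ring
    rw [h4] at hbad
    have h5 : 0 < ε * n ^ 2 := by positivity
    linarith
  obtain ⟨d, hadj, hA, hB⟩ := hsurv
  rw [SimpleGraph.regularityReduced_adj] at hadj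
  obtain ⟨-, U, hU, W, hW, hdU, hdW, -, hunif, hdens⟩ := hadj
  rw [Q.part_eq_of_mem hU hdU] at hA
  rw [Q.part_eq_of_mem hW hdW] at hB
  have hpart : ∀ U ∈ Q.parts, (#U : ℝ) * (ε / 8 / 8) ≤ γ := by
    intro U hU
    have h1 := hQ1.card_part_le_average_add_one hU
    have h2 : (#U : ℝ) ≤ 2 * n / k + 1 := by
      have h3 : ((Fintype.card (V ⊕ V) / #Q.parts : ℕ) : ℝ) ≤
          (Fintype.card (V ⊕ V) : ℝ) / (#Q.parts : ℝ) := Nat.cast_div_le
      rw [Finset.card_univ] at h1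
      have h4 : (#U : ℝ) ≤ ((Fintype.card (V ⊕ V) / #Q.parts : ℕ) : ℝ) + 1 := by
        exact_mod_cast h1
      have h5 : (Fintype.card (V ⊕ V) : ℝ) = 2 * n := by
        rw [Fintype.card_sum]; push_cast; ring
      rw [h5] at h3
      linarith
    have h3 : 1 ≤ 2 * n / k := by
      rw [le_div_iff₀ hk0, one_mul]
      have h4 := Q.card_parts_le_card
      rw [Finset.card_univ, Fintype.card_sum] at h4
      have h5 : (#Q.parts : ℝ) ≤ (Fintype.card V : ℝ) + Fintype.card V := by exact_mod_cast h4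
      linarith
    have h6 : (#U : ℝ) ≤ 4 * n / k := by
      have : 4 * n / k = 2 * n / k + 2 * n / k := by ring
      linarith
    calc (#U : ℝ) * (ε / 8 / 8) ≤ 4 * n / k * (ε / 8 / 8) :=
          mul_le_mul_of_nonneg_right h6 (by positivity)
      _ = γ := by rw [hγ]; field_simp; norm_num
  have hfin := survivor_bound α β l m I2 I3 I4 d U W (ε / 8 / 8) γ (by positivity) hγ0.le hunif
    (by
      have : 2 * (ε / 8 / 8) = ε / 8 / 4 := by ring
      rw [this]; exact hdens) (hpart U hU) (hpart W hW) hA hB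
  have hkM : k ≤ (M : ℝ) := Nat.cast_le.2 hQM
  rw [div_lt_iff₀ (by positivity)] at hnB
  have h7 : ε / 8 / 8 * γ ^ 2 = (ε / 8 / 8 * ε ^ 2) * n ^ 2 / (256 * k ^ 2) := by
    rw [hγ]; field_simp; norm_num
  rw [h7, div_le_iff₀ (by positivity)] at hfin
  have h8 : (ε / 8 / 8 * ε ^ 2) * n ^ 2 ≤ 512 * k ^ 2 * n := by
    have : 2 * (Fintype.card V : ℝ) * (256 * k ^ 2) = 512 * k ^ 2 * n := by
      rw [hndef]; ring
    linarith
  have h9 : k ^ 2 ≤ (M : ℝ) ^ 2 := pow_le_pow_left₀ hk0.le hkM 2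
  have h10 : 512 * k ^ 2 * n ≤ 512 * (M : ℝ) ^ 2 * n := by
    apply mul_le_mul_of_nonneg_right _ hn0.le
    linarith
  have h11 : 512 * (M : ℝ) ^ 2 * n < (n * (ε / 8 / 8 * ε ^ 2)) * n :=
    mul_lt_mul_of_pos_right hnB hn0
  nlinarith

end NRDProblem
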