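import Mathlib

/-!
# Non-redundancy of Boolean predicates: definitions
-/

namespace NRDProblem

/-- An instance of `CSP(P)` on a set `V` of variables is a finite set `C` of clauses, each clause
being an `r`-tuple of variables.  The instance is non-redundant if for every clause `c ∈ C` there
is an assignment `ψ : V → {0,1}` that satisfies every clause of `C \ {c}` but does not
satisfy `c`. -/
def NonRedundant {r : ℕ} {V : Type*} (P : Set (Fin r → Bool)) (C : Finset (Fin r → V)) : Prop :=
  ∀ c ∈ C, ∃ ψ : V → Bool,
    (∀ d ∈ C, d ≠ c → (fun i => ψ (d i)) ∈ P) ∧ (fun i => ψ (c i)) ∉ P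

/-- `NRD P n`: the largest number of clauses in a non-redundant instance of `CSP(P)` on `n`
variables (the set of possible sizes is bounded by `n ^ r` and contains `0`, so the supremum
is a maximum). -/
noncomputable def NRD {r : ℕ} (P : Set (Fin r → Bool)) (n : ℕ) : ℕ :=
  sSup {k | ∃ C : Finset (Fin r → Fin n), NonRedundant P C ∧ C.card = k}

end NRDProblem
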