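import Pool.Agent.Helper10.NRDDefs

/-!
# The linear-algebra part of the non-redundancy bound
-/

open Finset

namespace NRDProblem

/-- biorthogonal systems are at most as large as the dimension -/
lemma card_le_of_biorthogonal {ι E : Type*} [Fintype ι] [AddCommGroup E] [Module ℚ E]
    [FiniteDimensional ℚ E] (v : ι → E) (φ : ι → (E →ₗ[ℚ] ℚ))
    (h0 : ∀ c d, d ≠ c → φ c (v d) = 0) (h1 : ∀ c, φ c (v c) ≠ 0) :
    Fintype.card ι ≤ Module.finrank ℚ E := by
  have hli : LinearIndependent ℚ v := by
    rw [linearIndependent_iff']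
    intro s g hg c hc
    have h := congrArg (φ c) hg
    rw [map_sum, map_zero, Finset.sum_eq_single c] at h
    · rw [map_smul, smul_eq_mul] at h
      exact (mul_eq_zero.1 h).resolve_right (h1 c)
    · intro d _ hd
      rw [map_smul, h0 c d hd, smul_zero]
    · intro h'
      exact (h' hc).elim
  exact hli.fintype_card_le_finrank

/-- the value in `ℚ` of a Boolean -/
def bv (b : Bool) : ℚ := if b then 1 else 0

/-- In a non-redundant instance, the clauses whose private witness violates a fixed affine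
equation satisfied by all of `P` number at most `n + 1`. -/
lemma card_affine_class_le {r n : ℕ} (P : Set (Fin r → Bool)) (C : Finset (Fin r → Fin n))
    (ψ : (Fin r → Fin n) → (Fin n → Bool))
    (hψ : ∀ c ∈ C, ∀ d ∈ C, d ≠ c → (fun i => ψ c (d i)) ∈ P)
    (a : Fin r → ℚ) (b : ℚ) (hP : ∀ p ∈ P, ∑ i, a i * bv (p i) = b) :
    #{c ∈ C | ∑ i, a i * bv (ψ c (c i)) ≠ b} ≤ n + 1 := by
  classical
  set S : Finset (Fin r → Fin n) := {c ∈ C | ∑ i, a i * bv (ψ c (c i)) ≠ b} with hS
  let v : S → (Option (Fin n) → ℚ) := fun c o => match o with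
    | none => 1
    | some w => bv (ψ c.1 w)
  let φ : S → ((Option (Fin n) → ℚ) →ₗ[ℚ] ℚ) := fun c =>
    (∑ i, a i • LinearMap.proj (some (c.1 i))) - b • LinearMap.proj none
  have hφ : ∀ c d : S, φ c (v d) = ∑ i, a i * bv (ψ d.1 (c.1 i)) - b := by
    intro c d
    simp [φ, v, LinearMap.sub_apply, LinearMap.sum_apply]
  have hmem : ∀ c : S, c.1 ∈ C ∧ ∑ i, a i * bv (ψ c.1 (c.1 i)) ≠ b := by
    intro c
    exact Finset.mem_filter.1 c.2
  have h := card_le_of_biorthogonal v φ
    (by
      intro c d hd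
      rw [hφ, sub_eq_zero]
      have hne : c.1 ≠ d.1 := fun h => hd (Subtype.ext h.symm)
      exact hP _ (hψ d.1 (hmem d).1 c.1 (hmem c).1 hne))
    (by
      intro c
      rw [hφ, sub_ne_zero]
      exact (hmem c).2)
  rw [Module.finrank_fintype_fun_eq_card, Fintype.card_option, Fintype.card_fin,
    Fintype.card_coe] at h
  exact h

end NRDProblem
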