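import Pool.Agent.Helper10.NRDDefs
import Pool.Agent.Helper10.NRDComb
import Pool.Agent.Helper10.NRDLin

/-!
# A Boolean predicate of arity 9 with non-redundancy strictly between linear and quadratic
-/

open Finset

namespace NRDProblem

/-! ### General facts about `NRD` -/

section General

variable {r : ℕ} (P : Set (Fin r → Bool))

lemma nrd_bddAbove (n : ℕ) :
    BddAbove {k | ∃ C : Finset (Fin r → Fin n), NonRedundant P C ∧ C.card = k} := by
  refine ⟨Fintype.card (Fin r → Fin n), ?_⟩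
  rintro k ⟨C, -, rfl⟩
  exact Finset.card_le_univ C

lemma le_nrd {n : ℕ} {W : Type*} [DecidableEq W] (e : W → Fin n) (he : Function.Injective e)
    (C : Finset (Fin r → W)) (hC : NonRedundant P C) : C.card ≤ NRD P n := by
  apply le_csSup (nrd_bddAbove P n)
  have hinj : Function.Injective (fun c : Fin r → W => (fun i => e (c i))) := by
    intro c d h
    funext i
    exact he (congrFun h i)
  refine ⟨C.image (fun c => (fun i => e (c i))), ?_, Finset.card_image_of_injective _ hinj⟩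
  intro c hc
  rw [Finset.mem_image] at hc
  obtain ⟨c, hc, rfl⟩ := hc
  obtain ⟨ψ, h1, h2⟩ := hC c hc
  refine ⟨Function.extend e ψ (fun _ => false), ?_, ?_⟩
  · intro d hd hne
    rw [Finset.mem_image] at hd
    obtain ⟨d, hd, rfl⟩ := hd
    have hne' : d ≠ c := fun h => hne (by rw [h])
    have := h1 d hd hne'
    simpa only [he.extend_apply] using this
  · simpa only [he.extend_apply] using h2

lemma nrd_le_of {n N : ℕ} (h : ∀ C : Finset (Fin r → Fin n), NonRedundant P C → C.card ≤ N) :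
    NRD P n ≤ N := by
  apply csSup_le
  · exact ⟨0, ∅, fun c hc => by simp at hc, by simp⟩
  · rintro k ⟨C, hC, rfl⟩
    exact h C hC

lemma exists_nrd (n : ℕ) : ∃ C : Finset (Fin r → Fin n), NonRedundant P C ∧ C.card = NRD P n :=
  Nat.sSup_mem (s := {k | ∃ C : Finset (Fin r → Fin n), NonRedundant P C ∧ C.card = k})
    ⟨0, ∅, fun c hc => by simp at hc, by simp⟩ (nrd_bddAbove P n)

end General

/-! ### The predicate -/

/-- one-hot encoding of a triple of elements of `{0,1,2}` -/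
def enc (x y z : Fin 3) : Fin 9 → Bool :=
  ![x = 0, x = 1, x = 2, y = 0, y = 1, y = 2, z = 0, z = 1, z = 2]

/-- the predicate, of arity `9`, with six satisfying assignments -/
def P9 : Set (Fin 9 → Bool) :=
  {p | p = enc 0 2 1 ∨ p = enc 1 0 2 ∨ p = enc 1 2 0 ∨ p = enc 1 1 1 ∨ p = enc 2 2 2 ∨
    p = enc 2 1 0}

instance : DecidablePred (· ∈ P9) := fun p => by
  unfold P9
  exact inferInstanceAs (Decidable (p = enc 0 2 1 ∨ p = enc 1 0 2 ∨ p = enc 1 2 0 ∨
    p = enc 1 1 1 ∨ p = enc 2 2 2 ∨ p = enc 2 1 0))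

/-! ### Lower bound -/

/-- the clause `(x_{ij}, y_{jk}, z_{ki})` of the lower bound instance -/
def cl {m : ℕ} (t : Fin m × Fin m × Fin m) : Fin 9 → Fin 3 × Fin m × Fin m × Fin 3 :=
  ![(0, t.1, t.2.1, 0), (0, t.1, t.2.1, 1), (0, t.1, t.2.1, 2),
    (1, t.2.1, t.2.2, 0), (1, t.2.1, t.2.2, 1), (1, t.2.1, t.2.2, 2),
    (2, t.2.2, t.1, 0), (2, t.2.2, t.1, 1), (2, t.2.2, t.1, 2)]

/-- the labels -/
def lf (I : Bool) : Fin 3 := if I then 0 else 1
/-- the labels -/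
def lg (I : Bool) : Fin 3 := if I then 0 else 2

/-- the private assignment of the clause `t` -/
def asg {m : ℕ} (t : Fin m × Fin m × Fin m) : Fin 3 × Fin m × Fin m × Fin 3 → Bool :=
  fun w =>
    if w.1 = 0 then lf (w.2.1 = t.1) - lg (w.2.2.1 = t.2.1) = w.2.2.2
    else if w.1 = 1 then lg (w.2.1 = t.2.1) - lf (w.2.2.1 = t.2.2) = w.2.2.2
    else lf (w.2.1 = t.2.2) - lf (w.2.2.1 = t.1) = w.2.2.2

lemma asg_cl {m : ℕ} (t s : Fin m × Fin m × Fin m) :
    (fun i => asg t (cl s i)) = enc (lf (s.1 = t.1) - lg (s.2.1 = t.2.1))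
      (lg (s.2.1 = t.2.1) - lf (s.2.2 = t.2.2)) (lf (s.2.2 = t.2.2) - lf (s.1 = t.1)) := by
  funext i
  fin_cases i <;> rfl

lemma enc_mem (I J K : Bool) : (enc (lf I - lg J) (lg J - lf K) (lf K - lf I) ∈ P9) ↔
    ¬ (I = true ∧ J = true ∧ K = true) := by
  revert I J K
  decide

lemma cl_injective {m : ℕ} : Function.Injective (cl (m := m)) := by
  intro s t h
  have h0 := congrFun h 0
  have h3 := congrFun h 3
  simp [cl] at h0 h3
  ext
  · rw [h0.1]
  · rw [h0.2]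
  · rw [h3.2]

lemma nonRedundant_cl (m : ℕ) :
    NonRedundant P9 ((univ : Finset (Fin m × Fin m × Fin m)).image cl) := by
  intro c hc
  rw [Finset.mem_image] at hc
  obtain ⟨t, -, rfl⟩ := hc
  refine ⟨asg t, ?_, ?_⟩
  · intro d hd hne
    rw [Finset.mem_image] at hd
    obtain ⟨s, -, rfl⟩ := hd
    rw [asg_cl, enc_mem]
    rintro ⟨h1, h2, h3⟩
    apply hne
    rw [decide_eq_true_eq] at h1 h2 h3
    congr 1
    exact Prod.ext h1 (Prod.ext h2 h3)
  · rw [asg_cl, enc_mem]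
    simp

lemma cube_le_nrd {m n : ℕ} (h : 9 * m ^ 2 ≤ n) : m ^ 3 ≤ NRD P9 n := by
  have hcard : Fintype.card (Fin 3 × Fin m × Fin m × Fin 3) ≤ Fintype.card (Fin n) := by
    simp only [Fintype.card_prod, Fintype.card_fin]
    calc 3 * (m * (m * 3)) = 9 * m ^ 2 := by ring
      _ ≤ n := h
  obtain ⟨e⟩ := Function.Embedding.nonempty_of_card_le hcard
  have := le_nrd P9 e e.injective _ (nonRedundant_cl m)
  rw [Finset.card_image_of_injective _ cl_injective, Finset.card_univ] at this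
  simp only [Fintype.card_prod, Fintype.card_fin] at this
  calc m ^ 3 = m * (m * m) := by ring
    _ ≤ _ := this

/-! ### Upper bound -/

/-- coefficients of the four affine equations -/
def cf : Fin 4 → (Fin 9 → ℚ) :=
  ![![1, 1, 1, 0, 0, 0, 0, 0, 0], ![0, 0, 0, 1, 1, 1, 0, 0, 0], ![0, 0, 0, 0, 0, 0, 1, 1, 1],
    ![0, 1, 2, 0, -2, -1, 0, 1, -1]]

/-- right-hand sides of the four affine equations -/
def rhs : Fin 4 → ℚ := ![1, 1, 1, 0]

lemma eqs_of_mem (k : Fin 4) (p : Fin 9 → Bool) (hp : p ∈ P9) :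
    ∑ i, cf k i * bv (p i) = rhs k := by
  rcases hp with rfl | rfl | rfl | rfl | rfl | rfl <;> fin_cases k <;>
    simp [Fin.sum_univ_succ, cf, rhs, enc, bv] <;> norm_num [Fin.ext_iff]

lemma one_hot (b0 b1 b2 : Bool) (h : bv b0 + bv b1 + bv b2 = 1) :
    (b0 = true ∧ b1 = false ∧ b2 = false) ∨ (b0 = false ∧ b1 = true ∧ b2 = false) ∨
      (b0 = false ∧ b1 = false ∧ b2 = true) := by
  revert h
  cases b0 <;> cases b1 <;> cases b2 <;> norm_num [bv]

lemma of_eqs_aux (b0 b1 b2 b3 b4 b5 b6 b7 b8 : Bool) (h0 : bv b0 + bv b1 + bv b2 = 1)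
    (h1 : bv b3 + bv b4 + bv b5 = 1) (h2 : bv b6 + bv b7 + bv b8 = 1)
    (h3 : bv b1 + 2 * bv b2 - 2 * bv b4 - bv b5 + bv b7 - bv b8 = 0) :
    (![b0, b1, b2, b3, b4, b5, b6, b7, b8] : Fin 9 → Bool) ∈ P9 ∨
      (![b0, b1, b2, b3, b4, b5, b6, b7, b8] : Fin 9 → Bool) = enc 0 0 0 := by
  rcases one_hot _ _ _ h0 with ⟨rfl, rfl, rfl⟩ | ⟨rfl, rfl, rfl⟩ | ⟨rfl, rfl, rfl⟩ <;>
  rcases one_hot _ _ _ h1 with ⟨rfl, rfl, rfl⟩ | ⟨rfl, rfl, rfl⟩ | ⟨rfl, rfl, rfl⟩ <;>
  rcases one_hot _ _ _ h2 with ⟨rfl, rfl, rfl⟩ | ⟨rfl, rfl, rfl⟩ | ⟨rfl, rfl, rfl⟩ <;>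
  first
    | exact Or.inl (by decide)
    | exact Or.inr (by decide)
    | (exfalso; revert h3; norm_num [bv])

/-- the tuples in `{0,1}^9` satisfying all four equations are those of `P9` and `000`. -/
lemma of_eqs (p : Fin 9 → Bool) (h : ∀ k, ∑ i, cf k i * bv (p i) = rhs k) :
    p ∈ P9 ∨ p = enc 0 0 0 := by
  have hp : p = ![p 0, p 1, p 2, p 3, p 4, p 5, p 6, p 7, p 8] := by
    funext i
    fin_cases i <;> rfl
  rw [hp]
  have h0 := h 0
  have h1 := h 1
  have h2 := h 2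
  have h3 := h 3
  simp [Fin.sum_univ_succ, cf, rhs] at h0 h1 h2 h3
  have e0 : bv (p 0) + bv (p 1) + bv (p 2) = 1 := by linarith
  have e1 : bv (p 3) + bv (p 4) + bv (p 5) = 1 := by linarith
  have e2 : bv (p 6) + bv (p 7) + bv (p 8) = 1 := by linarith
  have e3 : bv (p 1) + 2 * bv (p 2) - 2 * bv (p 4) - bv (p 5) + bv (p 7) - bv (p 8) = 0 := by
    linarith
  exact of_eqs_aux _ _ _ _ _ _ _ _ _ e0 e1 e2 e3

/-- in an element of `P9`, `a0 = 1` forces `b0 = 0`, `c1 = 1` (and `c2 = 0`) -/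
lemma P9_a0 (p : Fin 9 → Bool) (hp : p ∈ P9) (h : p 0 = true) : p 3 = false ∧ p 7 = true := by
  rcases hp with rfl | rfl | rfl | rfl | rfl | rfl <;> revert h <;> decide

lemma P9_b0 (p : Fin 9 → Bool) (hp : p ∈ P9) (h : p 3 = true) : p 0 = false ∧ p 8 = true := by
  rcases hp with rfl | rfl | rfl | rfl | rfl | rfl <;> revert h <;> decide

lemma P9_c (p : Fin 9 → Bool) (hp : p ∈ P9) (h : p 7 = true) : p 8 = false := by
  rcases hp with rfl | rfl | rfl | rfl | rfl | rfl <;> revert h <;> decide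

lemma nrd_upper (ε : ℝ) (hε : 0 < ε) : ∃ n0 : ℕ, ∀ n : ℕ, n0 ≤ n →
    (NRD P9 n : ℝ) ≤ 4 * (n + 1) + ε * (n : ℝ) ^ 2 := by
  classical
  obtain ⟨n0, hn0⟩ := comb_bound ε hε
  refine ⟨n0, fun n hn => ?_⟩
  obtain ⟨C, hC, hcard⟩ := exists_nrd P9 n
  rw [← hcard]
  have hC' : ∀ c : Fin 9 → Fin n, ∃ ψ : Fin n → Bool, c ∈ C →
      (∀ d ∈ C, d ≠ c → (fun i => ψ (d i)) ∈ P9) ∧ (fun i => ψ (c i)) ∉ P9 := by
    intro c
    by_cases hc : c ∈ C
    · obtain ⟨ψ, h⟩ := hC c hc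
      exact ⟨ψ, fun _ => h⟩
    · exact ⟨fun _ => false, fun h => (hc h).elim⟩
  choose ψ hψ using hC'
  set C0 : Finset (Fin 9 → Fin n) := {c ∈ C | (fun i => ψ c (c i)) = enc 0 0 0} with hC0
  have hcls : ∀ k : Fin 4, #{c ∈ C | ∑ i, cf k i * bv (ψ c (c i)) ≠ rhs k} ≤ n + 1 := fun k =>
    card_affine_class_le P9 C ψ (fun c hc => (hψ c hc).1) (cf k) (rhs k) (eqs_of_mem k)
  have hcover : C ⊆ (univ : Finset (Fin 4)).biUnion
      (fun k => {c ∈ C | ∑ i, cf k i * bv (ψ c (c i)) ≠ rhs k}) ∪ C0 := by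
    intro c hc
    rw [Finset.mem_union]
    by_cases h : ∀ k, ∑ i, cf k i * bv (ψ c (c i)) = rhs k
    · right
      rw [hC0, Finset.mem_filter]
      refine ⟨hc, ?_⟩
      rcases of_eqs (fun i => ψ c (c i)) h with h1 | h1
      · exact ((hψ c hc).2 h1).elim
      · exact h1
    · left
      push Not at h
      obtain ⟨k, hk⟩ := h
      rw [Finset.mem_biUnion]
      exact ⟨k, Finset.mem_univ _, Finset.mem_filter.2 ⟨hc, hk⟩⟩
  have h1 : #C ≤ 4 * (n + 1) + #C0 := by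
    refine (Finset.card_le_card hcover).trans ((Finset.card_union_le _ _).trans ?_)
    apply Nat.add_le_add_right
    refine Finset.card_biUnion_le.trans ?_
    refine (Finset.sum_le_sum (fun k _ => hcls k)).trans ?_
    rw [Finset.sum_const, Finset.card_univ, Fintype.card_fin, smul_eq_mul]
  have hmem : ∀ c : C0, c.1 ∈ C ∧ (fun i => ψ c.1 (c.1 i)) = enc 0 0 0 := fun c =>
    Finset.mem_filter.1 c.2
  have hval : ∀ (c : C0) (i : Fin 9), ψ c.1 (c.1 i) = enc 0 0 0 i := fun c i =>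
    congrFun (hmem c).2 i
  have hP : ∀ c d : C0, d ≠ c → (fun i => ψ c.1 (d.1 i)) ∈ P9 := by
    intro c d hne
    exact (hψ c.1 (hmem c).1).1 d.1 (hmem d).1 (fun h => hne (Subtype.ext h))
  have h2 : (Fintype.card C0 : ℝ) ≤ ε * (Fintype.card (Fin n) : ℝ) ^ 2 := by
    apply hn0 (Fin n) C0 (fun c => c.1 0) (fun c => c.1 3) (fun c => c.1 7) (fun c => c.1 8)
    · intro c d h0 h3
      by_contra hne
      have hp := hP c d (fun h => hne h.symm)
      have e0 : ψ c.1 (d.1 0) = true := by rw [← h0, hval]; rfl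
      have e3 : ψ c.1 (d.1 3) = true := by rw [← h3, hval]; rfl
      have := (P9_a0 _ hp e0).1
      rw [this] at e3
      cases e3
    · intro c d h0 h7
      by_contra hne
      have hp := hP c d (fun h => hne h.symm)
      have e0 : ψ c.1 (d.1 0) = true := by rw [← h0, hval]; rfl
      have e7 : ψ c.1 (d.1 7) = false := by rw [← h7, hval]; rfl
      have := (P9_a0 _ hp e0).2
      rw [this] at e7
      cases e7
    · intro c d h3 h8
      by_contra hne
      have hp := hP c d (fun h => hne h.symm)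
      have e3 : ψ c.1 (d.1 3) = true := by rw [← h3, hval]; rfl
      have e8 : ψ c.1 (d.1 8) = false := by rw [← h8, hval]; rfl
      have := (P9_b0 _ hp e3).2
      rw [this] at e8
      cases e8
    · intro c c' c'' d ha hca hb hcb hl hm
      have hp' := hP c c' hca
      have hp'' := hP c c'' hcb
      have e0 : ψ c.1 (c'.1 0) = true := by rw [ha, hval]; rfl
      have e3 : ψ c.1 (c''.1 3) = true := by rw [hb, hval]; rfl
      have e7 := (P9_a0 _ hp' e0).2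
      have e8 := (P9_b0 _ hp'' e3).2
      have hl' : d.1 7 = c'.1 7 := hl
      have hm' : d.1 8 = c''.1 8 := hm
      have e7' : ψ c.1 (d.1 7) = true := by rw [hl']; exact e7
      have e8' : ψ c.1 (d.1 8) = true := by rw [hm']; exact e8
      by_cases hdc : d = c
      · rw [hdc, hval] at e7'
        exact absurd e7' (by decide)
      · have hpd := hP c d hdc
        have := P9_c _ hpd e7'
        rw [this] at e8'
        cases e8'
    · rw [Fintype.card_fin]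
      exact hn
  rw [Fintype.card_coe, Fintype.card_fin] at h2
  have h3 : (#C : ℝ) ≤ 4 * (n + 1) + #C0 := by exact_mod_cast h1
  linarith

/-! ### Asymptotics -/

lemma nrd_lower {n : ℕ} (hn : 9 ≤ n) : (1 / 216 : ℝ) * (n : ℝ) ^ (3 / 2 : ℝ) ≤ NRD P9 n := by
  set m : ℕ := Nat.sqrt (n / 9) with hm
  have h1 : 1 ≤ m := by
    rw [hm, Nat.le_sqrt]
    omega
  have h2 : m ^ 2 ≤ n / 9 := by
    rw [hm, sq]
    exact Nat.sqrt_le _
  have h3 : 9 * m ^ 2 ≤ n := by omega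
  have h4 : n / 9 < (m + 1) ^ 2 := by
    rw [hm, sq]
    exact Nat.sqrt_lt.1 (Nat.lt_succ_self _)
  have h5 : n ≤ 36 * m ^ 2 := by
    have : n < 9 * (m + 1) ^ 2 := by omega
    nlinarith
  have h6 : (n : ℝ) ≤ 36 * (m : ℝ) ^ 2 := by exact_mod_cast h5
  have h7 : (n : ℝ) ^ (3 / 2 : ℝ) ≤ (36 * (m : ℝ) ^ 2) ^ (3 / 2 : ℝ) :=
    Real.rpow_le_rpow (by positivity) h6 (by norm_num)
  have h8 : (36 * (m : ℝ) ^ 2) ^ (3 / 2 : ℝ) = 216 * (m : ℝ) ^ 3 := by
    have : (36 * (m : ℝ) ^ 2) = (6 * (m : ℝ)) ^ (2 : ℝ) := by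
      rw [show (2 : ℝ) = ((2 : ℕ) : ℝ) by norm_num, Real.rpow_natCast]
      ring
    rw [this, ← Real.rpow_mul (by positivity), show (2 : ℝ) * (3 / 2) = ((3 : ℕ) : ℝ) by norm_num,
      Real.rpow_natCast]
    ring
  rw [h8] at h7
  have h9 : ((m ^ 3 : ℕ) : ℝ) ≤ NRD P9 n := by exact_mod_cast cube_le_nrd h3
  push_cast at h9
  linarith

open Filter Topology

lemma tendsto_lower : Tendsto (fun n : ℕ => (NRD P9 n : ℝ) / n) atTop atTop := by
  have h1 : Tendsto (fun n : ℕ => (1 / 216 : ℝ) * (n : ℝ) ^ (1 / 2 : ℝ)) atTop atTop := by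
    apply Tendsto.const_mul_atTop (by norm_num)
    exact (tendsto_rpow_atTop (by norm_num)).comp tendsto_natCast_atTop_atTop
  refine tendsto_atTop_mono' _ ?_ h1
  filter_upwards [eventually_ge_atTop 9] with n hn
  have hn0 : (0 : ℝ) < n := by
    have : 0 < n := by omega
    exact_mod_cast this
  rw [le_div_iff₀ hn0]
  refine le_trans (le_of_eq ?_) (nrd_lower hn)
  rw [mul_assoc]
  congr 1
  nth_rewrite 2 [← Real.rpow_one (n : ℝ)]
  rw [← Real.rpow_add hn0]
  norm_num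

lemma tendsto_upper : Tendsto (fun n : ℕ => (NRD P9 n : ℝ) / (n : ℝ) ^ 2) atTop (𝓝 0) := by
  rw [Metric.tendsto_atTop]
  intro ε hε
  obtain ⟨n0, hn0⟩ := nrd_upper (ε / 4) (by positivity)
  refine ⟨max n0 (⌈16 / ε⌉₊ + 1), fun n hn => ?_⟩
  have h1 : n0 ≤ n := (le_max_left _ _).trans hn
  have h2 : 16 / ε < (n : ℝ) := by
    refine (Nat.le_ceil _).trans_lt ?_
    exact_mod_cast (le_max_right _ _).trans hn
  have hnpos : (0 : ℝ) < n := lt_trans (by positivity) h2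
  have hn1 : (1 : ℝ) ≤ n := by
    have : 0 < n := by exact_mod_cast hnpos
    exact_mod_cast this
  rw [Real.dist_eq, sub_zero, abs_of_nonneg (by positivity), div_lt_iff₀ (by positivity)]
  have h3 := hn0 n h1
  have h4 : 16 < n * ε := by rwa [div_lt_iff₀ hε] at h2
  have h5 : 4 * ((n : ℝ) + 1) ≤ 8 * n := by linarith
  have h6 : 8 * (n : ℝ) ≤ ε / 2 * (n : ℝ) ^ 2 := by nlinarith
  have h7 : 0 < ε * (n : ℝ) ^ 2 := by positivity
  nlinarith

end NRDProblem
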