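import Pool.Agent.Helper10.SysNormDefs

set_option autoImplicit false

/-!
# The hypercentre is not an intersection of boundedly many system normalizers

For every `n ≥ 1` we construct a finite soluble (indeed metabelian) group `G` with trivial
hypercentre such that no `n` system normalizers of `G` intersect in the hypercentre.

The group is `Heis_n(𝔽₃) ⋊ C₂`, of order `2 * 3 ^ (2 * n + 1)`: its elements are quadruples
`(u, t, w, e)` with `u ∈ 𝔽₃`, `t, w ∈ 𝔽₃ⁿ`, `e ∈ {1, -1}`, and
`(u, t, w, e) (u', t', w', e') = (u + e u' + t ⬝ (e w'), t + t', w + e w', e e')`.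
-/

namespace Pool.Agent.Helper10.SysNorm

open scoped Pointwise

/-! ### The group -/

/-- The underlying set of the group `Heis_n(𝔽₃) ⋊ C₂`. -/
@[ext] structure HG (n : ℕ) where
  u : ZMod 3
  t : Fin n → ZMod 3
  w : Fin n → ZMod 3
  e : ℤˣ

namespace HG

variable {n : ℕ}

/-- the sign `e ∈ {1, -1}` as an element of `𝔽₃` -/
def s (e : ℤˣ) : ZMod 3 := ((e : ℤ) : ZMod 3)

lemma s_one : s 1 = 1 := by simp [s]
lemma s_mul (a b : ℤˣ) : s (a * b) = s a * s b := by simp [s]
lemma s_mul_self (a : ℤˣ) : s a * s a = 1 := by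
  rw [← s_mul, Int.units_mul_self, s_one]

instance : Mul (HG n) where
  mul a b := ⟨a.u + s a.e * b.u + s a.e * (a.t ⬝ᵥ b.w), a.t + b.t, a.w + s a.e • b.w, a.e * b.e⟩

instance : One (HG n) where
  one := ⟨0, 0, 0, 1⟩

instance : Inv (HG n) where
  inv a := ⟨-(s a.e * a.u) + s a.e * (a.t ⬝ᵥ a.w), -a.t, -(s a.e • a.w), a.e⟩

@[simp] lemma mul_u (a b : HG n) :
    (a * b).u = a.u + s a.e * b.u + s a.e * (a.t ⬝ᵥ b.w) := rfl
@[simp] lemma mul_t (a b : HG n) : (a * b).t = a.t + b.t := rfl
@[simp] lemma mul_w (a b : HG n) : (a * b).w = a.w + s a.e • b.w := rfl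
@[simp] lemma mul_e (a b : HG n) : (a * b).e = a.e * b.e := rfl
@[simp] lemma one_u : (1 : HG n).u = 0 := rfl
@[simp] lemma one_t : (1 : HG n).t = 0 := rfl
@[simp] lemma one_w : (1 : HG n).w = 0 := rfl
@[simp] lemma one_e : (1 : HG n).e = 1 := rfl
@[simp] lemma inv_u (a : HG n) : (a⁻¹).u = -(s a.e * a.u) + s a.e * (a.t ⬝ᵥ a.w) := rfl
@[simp] lemma inv_t (a : HG n) : (a⁻¹).t = -a.t := rfl
@[simp] lemma inv_w (a : HG n) : (a⁻¹).w = -(s a.e • a.w) := rfl
@[simp] lemma inv_e (a : HG n) : (a⁻¹).e = a.e := rfl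

instance : Group (HG n) := Group.ofLeftAxioms
  (by
    intro a b c
    ext i
    · simp only [mul_u, mul_t, mul_w, mul_e, s_mul, add_dotProduct, dotProduct_add,
        dotProduct_smul, smul_eq_mul]
      ring
    · simp only [mul_t, Pi.add_apply]; ring
    · simp only [mul_w, mul_e, s_mul, Pi.add_apply, Pi.smul_apply, smul_eq_mul]; ring
    · simp only [mul_e, mul_assoc])
  (by
    intro a
    ext i
    · simp [s_one]
    · simp
    · simp [s_one]
    · simp)
  (by
    intro a
    ext i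
    · simp only [mul_u, inv_u, inv_e, inv_t, one_u, neg_dotProduct]
      ring
    · simp
    · simp
    · simp [Int.units_mul_self])

/-- the group as a product of sets, used only for counting -/
def equivProd : HG n ≃ ZMod 3 × (Fin n → ZMod 3) × (Fin n → ZMod 3) × ℤˣ where
  toFun a := (a.u, a.t, a.w, a.e)
  invFun a := ⟨a.1, a.2.1, a.2.2.1, a.2.2.2⟩
  left_inv _ := rfl
  right_inv _ := rfl

instance : Finite (HG n) := Finite.of_equiv _ equivProd.symm

lemma card_eq : Nat.card (HG n) = 2 * 3 ^ (2 * n + 1) := by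
  rw [Nat.card_congr equivProd, Nat.card_prod, Nat.card_prod, Nat.card_prod, Nat.card_fun,
    Nat.card_eq_fintype_card (α := ℤˣ), Fintype.card_units_int, Nat.card_zmod, Nat.card_fin]
  ring

/-- the projection `(u, t, w, e) ↦ (t, e)` onto an abelian group -/
def toTE : HG n →* Multiplicative (Fin n → ZMod 3) × ℤˣ where
  toFun a := (Multiplicative.ofAdd a.t, a.e)
  map_one' := rfl
  map_mul' _ _ := rfl

/-- the projection `(u, t, w, e) ↦ e` -/
def toE : HG n →* ℤˣ where
  toFun a := a.e
  map_one' := rfl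
  map_mul' _ _ := rfl

lemma mem_ker_toTE {a : HG n} : a ∈ (toTE (n := n)).ker ↔ a.t = 0 ∧ a.e = 1 := by
  rw [MonoidHom.mem_ker, Prod.ext_iff]
  exact Iff.rfl

lemma isSolvable_ker : Group.IsSolvable (toTE (n := n)).ker := by
  refine Group.isSolvable_of_comm ?_
  rintro ⟨a, ha⟩ ⟨b, hb⟩
  obtain ⟨ha1, ha2⟩ := mem_ker_toTE.1 ha
  obtain ⟨hb1, hb2⟩ := mem_ker_toTE.1 hb
  apply Subtype.ext
  change a * b = b * a
  ext i
  · simp [ha1, hb1, ha2, hb2, s_one, add_comm]
  · simp [ha1, hb1]
  · simp [ha2, hb2, s_one, add_comm]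
  · simp [ha2, hb2]

lemma isSolvable : Group.IsSolvable (HG n) := by
  have := isSolvable_ker (n := n)
  exact Group.isSolvable_of_ker_le_range (toTE (n := n)).ker.subtype (toTE (n := n)) (by
    rw [Subgroup.range_subtype])

/-! ### The centre and the hypercentre are trivial -/

lemma center_eq_bot (hn : 0 < n) : Subgroup.center (HG n) = ⊥ := by
  rw [eq_bot_iff]
  intro a ha
  rw [Subgroup.mem_center_iff] at ha
  have h2 : (2 : ZMod 3) ≠ 0 := by decide
  -- commuting with `(0, 0, 0, -1)` gives `u = 0` and `w = 0`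
  have hk := ha ⟨0, 0, 0, -1⟩
  have hs : s (-1) = -1 := by simp [s]
  have hu : a.u = 0 := by
    have := congrArg HG.u hk
    simp [hs] at this
    have h : (2 : ZMod 3) * a.u = 0 := by
      linear_combination (-1 : ZMod 3) * this
    exact (mul_eq_zero.1 h).resolve_left h2
  have hw : a.w = 0 := by
    funext i
    have := congrFun (congrArg HG.w hk) i
    simp [hs] at this
    have h : (2 : ZMod 3) * a.w i = 0 := by
      linear_combination (-1 : ZMod 3) * this
    exact (mul_eq_zero.1 h).resolve_left h2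
  -- commuting with `(0, 0, w, 1)` gives `e = 1` and `t = 0`
  have he : a.e = 1 := by
    have := congrFun (congrArg HG.w (ha ⟨0, 0, fun _ => 1, 1⟩)) ⟨0, hn⟩
    simp [hw, s_one] at this
    rcases Int.units_eq_one_or a.e with h | h
    · exact h
    · rw [h, hs] at this
      exact absurd this (by decide)
  have ht : a.t = 0 := by
    funext i
    have := congrArg HG.u (ha ⟨0, 0, Pi.single i 1, 1⟩)
    simpa [hu, hw, he, s_one, eq_comm] using this
  rw [Subgroup.mem_bot]
  ext i
  · simp [hu]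
  · simp [ht]
  · simp [hw]
  · simp [he]

lemma hypercentre_eq_bot (hn : 0 < n) : hypercentre (HG n) = ⊥ := by
  have key : ∀ i : ℕ, Subgroup.upperCentralSeries (HG n) i = ⊥ := by
    intro i
    induction i with
    | zero => exact Subgroup.upperCentralSeries_zero _
    | succ i ih =>
      rw [eq_bot_iff]
      intro x hx
      rw [Subgroup.mem_upperCentralSeries_succ_iff] at hx
      rw [← center_eq_bot hn, Subgroup.mem_center_iff]
      intro y
      have := hx y
      rw [ih, Subgroup.mem_bot, commutatorElement_eq_one_iff_mul_comm] at this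
      exact this.symm
  rw [hypercentre]
  simp [key]

/-! ### Sylow subgroups -/

/-- the embedding `e ↦ (0, 0, 0, e)` -/
def ofE : ℤˣ →* HG n where
  toFun e := ⟨0, 0, 0, e⟩
  map_one' := rfl
  map_mul' a b := by
    ext i <;> simp

/-- the complement `K = {(0, 0, 0, e)}` -/
def K : Subgroup (HG n) := (ofE (n := n)).range

lemma card_K : Nat.card (K (n := n)) = 2 := by
  rw [K]
  have hinj : Function.Injective (ofE (n := n)) := by
    intro a b h
    exact congrArg HG.e h
  rw [← Nat.card_congr (MonoidHom.ofInjective hinj).toEquiv, Nat.card_eq_fintype_card,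
    Fintype.card_units_int]

lemma factorization_two : (Nat.card (HG n)).factorization 2 = 1 := by
  rw [card_eq, Nat.factorization_mul (by norm_num) (by positivity), Nat.factorization_pow]
  simp [Nat.Prime.factorization_self Nat.prime_two,
    Nat.factorization_eq_zero_of_not_dvd (by norm_num : ¬ 2 ∣ 3)]

/-- the conjugate of `(0, t, 0, 1)` by an element with `w`-component `v` -/
def cj (t v : Fin n → ZMod 3) : HG n := ⟨-(t ⬝ᵥ v), t, 0, 1⟩

lemma conj_eq (g : HG n) (t : Fin n → ZMod 3) : g * cj t 0 * g⁻¹ = cj t g.w := by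
  ext i
  · simp only [cj, mul_u, mul_t, mul_e, inv_u, inv_w, dotProduct_zero,
      neg_zero, mul_zero, add_zero, mul_one, dotProduct_neg, dotProduct_smul, smul_eq_mul,
      add_dotProduct]
    linear_combination (-(g.u) - t ⬝ᵥ g.w) * s_mul_self g.e
  · simp [cj]
  · simp only [cj, mul_w, mul_e, inv_w, smul_zero, add_zero, mul_one, Pi.add_apply, Pi.smul_apply,
      Pi.neg_apply, smul_eq_mul, Pi.zero_apply]
    linear_combination (-(g.w i)) * s_mul_self g.e
  · simp [cj, Int.units_mul_self]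

lemma cj_mem_normalizer_K (t : Fin n → ZMod 3) :
    cj t 0 ∈ Subgroup.normalizer ((K (n := n) : Subgroup (HG n)) : Set (HG n)) := by
  apply Subgroup.centralizer_le_normalizer
  rw [Subgroup.mem_centralizer_iff]
  rintro _ ⟨e, rfl⟩
  ext i <;> simp [cj, ofE]

/-- `K` as a Sylow 2-subgroup -/
def sylK : Sylow 2 (HG n) := Sylow.ofCard (p := 2) K (by rw [card_K, factorization_two]; norm_num)

lemma coe_sylK : ((sylK (n := n) : Sylow 2 (HG n)) : Subgroup (HG n)) = K := rfl

/-- For each Sylow 2-subgroup `R` there is a vector `v` such that all `cj t v` normalize `R`. -/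
lemma exists_cj_mem_normalizer (R : Sylow 2 (HG n)) :
    ∃ v : Fin n → ZMod 3, ∀ t : Fin n → ZMod 3,
      cj t v ∈ Subgroup.normalizer (((R : Subgroup (HG n))) : Set (HG n)) := by
  obtain ⟨g, hg⟩ := MulAction.exists_smul_eq (HG n) (sylK (n := n)) R
  refine ⟨g.w, fun t => ?_⟩
  have hmem : ∀ h : HG n, h ∈ (R : Subgroup (HG n)) ↔ g⁻¹ * h * g ∈ (K : Subgroup (HG n)) := by
    intro h
    rw [← hg, Sylow.coe_subgroup_smul, coe_sylK, Subgroup.mem_pointwise_smul_iff_inv_smul_mem,
      ← map_inv, MulAut.smul_def, MulAut.conj_apply, inv_inv]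
  rw [Subgroup.mem_normalizer_iff]
  intro h
  rw [hmem, hmem, ← conj_eq]
  have hc := Subgroup.mem_normalizer_iff.1 (cj_mem_normalizer_K t) (g⁻¹ * h * g)
  rw [hc]
  have : g⁻¹ * (g * cj t 0 * g⁻¹ * h * (g * cj t 0 * g⁻¹)⁻¹) * g =
      cj t 0 * (g⁻¹ * h * g) * (cj t 0)⁻¹ := by group
  rw [this]

/-- the normal Sylow 3-subgroup `{e = 1}` is contained in every Sylow 3-subgroup -/
lemma ker_toE_le (R : Sylow 3 (HG n)) : (toE (n := n)).ker ≤ (R : Subgroup (HG n)) := by
  have hsurj : Function.Surjective (toE (n := n)) := fun e => ⟨⟨0, 0, 0, e⟩, rfl⟩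
  have hidx : (toE (n := n)).ker.index = 2 := by
    rw [Subgroup.index_ker, MonoidHom.range_eq_top.2 hsurj, Nat.card_congr Subgroup.topEquiv.toEquiv,
      Nat.card_eq_fintype_card, Fintype.card_units_int]
  have hcard : Nat.card (toE (n := n)).ker = 3 ^ (2 * n + 1) := by
    have h1 := (toE (n := n)).ker.card_mul_index
    rw [hidx, card_eq] at h1
    omega
  exact (IsPGroup.of_card hcard).le_sylow_of_normal R

lemma cj_mem_ker (t v : Fin n → ZMod 3) : cj t v ∈ (toE (n := n)).ker := rfl

lemma exists_cj_mem_systemNormalizer (S : SylowSystem (HG n)) :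
    ∃ v : Fin n → ZMod 3, ∀ t : Fin n → ZMod 3, cj t v ∈ systemNormalizer S := by
  have hpf : (Nat.card (HG n)).primeFactors = {2, 3} := by
    rw [card_eq, Nat.primeFactors_mul (by norm_num) (by positivity),
      Nat.primeFactors_prime_pow (by omega) Nat.prime_three, Nat.Prime.primeFactors Nat.prime_two]
    rfl
  have h2 : 2 ∈ (Nat.card (HG n)).primeFactors := by rw [hpf]; decide
  obtain ⟨v, hv⟩ := exists_cj_mem_normalizer (S.sylow ⟨2, h2⟩)
  refine ⟨v, fun t => ?_⟩
  rw [systemNormalizer, Subgroup.mem_iInf]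
  rintro ⟨p, hp⟩
  have hp' : p = 2 ∨ p = 3 := by
    rw [hpf] at hp
    simpa using hp
  rcases hp' with rfl | rfl
  · exact hv t
  · exact Subgroup.le_normalizer (ker_toE_le _ (cj_mem_ker t v))

/-- fewer than `n` independent linear conditions on a vector of length `n` -/
lemma exists_ne_zero (hn : 0 < n) (v : Fin n → Fin n → ZMod 3) :
    ∃ t : Fin n → ZMod 3, t ≠ 0 ∧ ∀ i, t ⬝ᵥ v i = t ⬝ᵥ v ⟨0, hn⟩ := by
  let L : (Fin n → ZMod 3) →ₗ[ZMod 3] (Fin n → ZMod 3) :=
    { toFun := fun t i => t ⬝ᵥ (v i - v ⟨0, hn⟩)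
      map_add' := fun a b => by funext i; simp [add_dotProduct]; ring
      map_smul' := fun c a => by funext i; simp [smul_dotProduct]; ring }
  have hns : ¬ Function.Surjective L := by
    intro h
    obtain ⟨t, ht⟩ := h (Pi.single ⟨0, hn⟩ 1)
    have := congrFun ht ⟨0, hn⟩
    simp [L] at this
  have hni : ¬ Function.Injective L := fun h => hns (LinearMap.injective_iff_surjective.1 h)
  rw [← LinearMap.ker_eq_bot, Submodule.eq_bot_iff] at hni
  push Not at hni
  obtain ⟨t, ht, ht0⟩ := hni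
  refine ⟨t, ht0, fun i => ?_⟩
  have := congrFun (LinearMap.mem_ker.1 ht) i
  have h2 : t ⬝ᵥ (v i - v ⟨0, hn⟩) = 0 := this
  rw [dotProduct_sub] at h2
  exact sub_eq_zero.1 h2

/-- the Sylow 3-subgroup `{e = 1}` -/
lemma card_ker_toE : Nat.card (toE (n := n)).ker = 3 ^ (2 * n + 1) := by
  have hsurj : Function.Surjective (toE (n := n)) := fun e => ⟨⟨0, 0, 0, e⟩, rfl⟩
  have hidx : (toE (n := n)).ker.index = 2 := by
    rw [Subgroup.index_ker, MonoidHom.range_eq_top.2 hsurj, Nat.card_congr Subgroup.topEquiv.toEquiv,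
      Nat.card_eq_fintype_card, Fintype.card_units_int]
  have h1 := (toE (n := n)).ker.card_mul_index
  rw [hidx, card_eq] at h1
  omega

lemma factorization_three : (Nat.card (HG n)).factorization 3 = 2 * n + 1 := by
  rw [card_eq, Nat.factorization_mul (by norm_num) (by positivity), Nat.factorization_pow]
  simp [Nat.Prime.factorization_self Nat.prime_three,
    Nat.factorization_eq_zero_of_not_dvd (by norm_num : ¬ 3 ∣ 2)]

/-- the normal Sylow 3-subgroup -/
def sylP : Sylow 3 (HG n) :=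
  Sylow.ofCard (p := 3) (toE (n := n)).ker (by rw [card_ker_toE, factorization_three])

lemma coe_sylP : ((sylP (n := n) : Sylow 3 (HG n)) : Subgroup (HG n)) = (toE (n := n)).ker := rfl

lemma eq_two_or_three (p : (Nat.card (HG n)).primeFactors) : (p : ℕ) = 2 ∨ (p : ℕ) = 3 := by
  obtain ⟨p, hp⟩ := p
  have hpf : (Nat.card (HG n)).primeFactors = {2, 3} := by
    rw [card_eq, Nat.primeFactors_mul (by norm_num) (by positivity),
      Nat.primeFactors_prime_pow (by omega) Nat.prime_three, Nat.Prime.primeFactors Nat.prime_two]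
    rfl
  rw [hpf] at hp
  simpa using hp

/-- the family of Sylow subgroups with given 2-member -/
def fam (R : Sylow 2 (HG n)) (p : (Nat.card (HG n)).primeFactors) : Sylow (p : ℕ) (HG n) :=
  if h : (p : ℕ) = 2 then h ▸ R else
    if h' : (p : ℕ) = 3 then h' ▸ sylP else ((eq_two_or_three p).elim h h').elim

lemma coe_fam_two (R : Sylow 2 (HG n)) (p : (Nat.card (HG n)).primeFactors) (h : (p : ℕ) = 2) :
    ((fam R p : Sylow (p : ℕ) (HG n)) : Subgroup (HG n)) = R := by
  obtain ⟨p, hp⟩ := p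
  change p = 2 at h
  subst h
  simp [fam]

lemma coe_fam_three (R : Sylow 2 (HG n)) (p : (Nat.card (HG n)).primeFactors) (h : (p : ℕ) = 3) :
    ((fam R p : Sylow (p : ℕ) (HG n)) : Subgroup (HG n)) = (toE (n := n)).ker := by
  obtain ⟨p, hp⟩ := p
  change p = 3 at h
  subst h
  simp [fam, coe_sylP]

/-- the Sylow system with given 2-member -/
def mkSys (R : Sylow 2 (HG n)) : SylowSystem (HG n) where
  sylow := fam R
  permute p q := by
    rcases eq_two_or_three p with hp | hp <;> rcases eq_two_or_three q with hq | hq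
    · rw [coe_fam_two R p hp, coe_fam_two R q hq]
    · rw [coe_fam_two R p hp, coe_fam_three R q hq]
      exact Subgroup.set_mul_normal_comm _ _
    · rw [coe_fam_three R p hp, coe_fam_two R q hq]
      exact (Subgroup.set_mul_normal_comm _ _).symm
    · rw [coe_fam_three R p hp, coe_fam_three R q hq]

lemma systemNormalizer_mkSys_le (R : Sylow 2 (HG n)) :
    systemNormalizer (mkSys R) ≤ Subgroup.normalizer ((R : Subgroup (HG n)) : Set (HG n)) := by
  have h2 : 2 ∈ (Nat.card (HG n)).primeFactors := by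
    rw [card_eq]
    refine Nat.mem_primeFactors.2 ⟨Nat.prime_two, dvd_mul_right _ _, by positivity⟩
  have h := iInf_le (fun p : (Nat.card (HG n)).primeFactors =>
    Subgroup.normalizer (((mkSys R).sylow p : Subgroup (HG n)) : Set (HG n))) ⟨2, h2⟩
  refine h.trans (le_of_eq ?_)
  have : (((mkSys R).sylow ⟨2, h2⟩ : Sylow _ (HG n)) : Subgroup (HG n)) = R :=
    coe_fam_two R ⟨2, h2⟩ rfl
  rw [this]

/-- elements normalizing `K` have trivial `u`- and `w`-component -/
lemma of_mem_normalizer_K {x : HG n}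
    (hx : x ∈ Subgroup.normalizer ((K (n := n) : Subgroup (HG n)) : Set (HG n))) :
    x.u = 0 ∧ x.w = 0 := by
  have h2 : (2 : ZMod 3) ≠ 0 := by decide
  have hs : s (-1) = -1 := by simp [s]
  have hk : (⟨0, 0, 0, -1⟩ : HG n) ∈ (K (n := n)) := ⟨-1, rfl⟩
  obtain ⟨e, he⟩ := (Subgroup.mem_normalizer_iff.1 hx _).1 hk
  rw [eq_mul_inv_iff_mul_eq] at he
  have hee : e = -1 := by
    have := congrArg HG.e he
    simp only [mul_e, ofE, MonoidHom.coe_mk, OneHom.coe_mk] at this
    rw [mul_comm] at this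
    exact mul_left_cancel this
  subst hee
  constructor
  · have := congrArg HG.u he
    simp [ofE, hs] at this
    have h : (2 : ZMod 3) * x.u = 0 := by linear_combination (-1 : ZMod 3) * this
    exact (mul_eq_zero.1 h).resolve_left h2
  · funext i
    have := congrFun (congrArg HG.w he) i
    simp [ofE, hs] at this
    have h : (2 : ZMod 3) * x.w i = 0 := by linear_combination (-1 : ZMod 3) * this
    exact (mul_eq_zero.1 h).resolve_left h2

/-- the translate by `(0, 0, v, 1)` -/
def tr (v : Fin n → ZMod 3) : HG n := ⟨0, 0, v, 1⟩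

lemma of_mem_systemNormalizer {x : HG n} (v : Fin n → ZMod 3)
    (hx : x ∈ systemNormalizer (mkSys (tr v • sylK (n := n)))) :
    x.w - v + s x.e • v = 0 ∧ x.u + x.t ⬝ᵥ v * s x.e = 0 := by
  have h1 := systemNormalizer_mkSys_le _ hx
  have hmem : ∀ h : HG n, h ∈ ((tr v • sylK (n := n) : Sylow 2 (HG n)) : Subgroup (HG n)) ↔
      (tr v)⁻¹ * h * tr v ∈ (K : Subgroup (HG n)) := by
    intro h
    rw [Sylow.coe_subgroup_smul, coe_sylK, Subgroup.mem_pointwise_smul_iff_inv_smul_mem,
      ← map_inv, MulAut.smul_def, MulAut.conj_apply, inv_inv]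
  have h2 : (tr v)⁻¹ * x * tr v ∈
      Subgroup.normalizer ((K (n := n) : Subgroup (HG n)) : Set (HG n)) := by
    rw [Subgroup.mem_normalizer_iff] at h1 ⊢
    intro h
    have h3 := h1 (tr v * h * (tr v)⁻¹)
    rw [hmem, hmem] at h3
    have e1 : (tr v)⁻¹ * (tr v * h * (tr v)⁻¹) * tr v = h := by group
    have e2 : (tr v)⁻¹ * (x * (tr v * h * (tr v)⁻¹) * x⁻¹) * tr v =
        (tr v)⁻¹ * x * tr v * h * ((tr v)⁻¹ * x * tr v)⁻¹ := by group
    rwa [e1, e2] at h3
  obtain ⟨hu, hw⟩ := of_mem_normalizer_K h2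
  constructor
  · rw [← hw]
    funext i
    simp [tr, s_one]
    ring
  · rw [← hu]
    simp [tr, s_one]
    ring

/-- a family of vectors containing `0` and the standard basis -/
def vec (n m : ℕ) (i : Fin m) : Fin n → ZMod 3 := fun j => if (i : ℕ) = j + 1 then 1 else 0

lemma iInf_eq_bot {m : ℕ} (hn : 0 < n) (hm : n < m) :
    ⨅ i : Fin m, systemNormalizer (mkSys (tr (vec n m i) • sylK (n := n))) = ⊥ := by
  rw [eq_bot_iff]
  intro x hx
  rw [Subgroup.mem_iInf] at hx
  have key : ∀ i : Fin m, _ := fun i => of_mem_systemNormalizer (vec n m i) (hx i)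
  have hv0 : vec n m ⟨0, by omega⟩ = 0 := by
    funext j
    simp [vec]
  have h0 := key ⟨0, by omega⟩
  rw [hv0] at h0
  have hw : x.w = 0 := by simpa using h0.1
  have hu : x.u = 0 := by simpa using h0.2
  have hvj : ∀ j : Fin n, vec n m ⟨j + 1, by omega⟩ = Pi.single j 1 := by
    intro j
    funext k
    simp only [vec, Pi.single_apply, Nat.add_right_cancel_iff, Fin.ext_iff, eq_comm]
  have he : x.e = 1 := by
    have h := key ⟨((⟨0, hn⟩ : Fin n) : ℕ) + 1, by simp; omega⟩
    rw [hvj ⟨0, hn⟩, hw] at h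
    have h3 := congrFun h.1 ⟨0, hn⟩
    simp at h3
    rcases Int.units_eq_one_or x.e with h | h
    · exact h
    · rw [h] at h3
      have hs : s (-1) = -1 := by simp [s]
      rw [hs] at h3
      have h4 : ¬ (-1 : ZMod 3) + -1 = 0 := by decide
      exact absurd h3 h4
  have ht : x.t = 0 := by
    funext j
    have h := (key ⟨(j : ℕ) + 1, by omega⟩).2
    rw [hvj j, hu, he, s_one] at h
    simpa using h
  rw [Subgroup.mem_bot]
  ext i
  · simp [hu]
  · simp [ht]
  · simp [hw]
  · simp [he]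

lemma not_of_le {n m : ℕ} (hn : 0 < n) (hm : 0 < m) (hmn : m ≤ n) (S : Fin m → SylowSystem (HG n)) :
    ⨅ i : Fin m, systemNormalizer (S i) ≠ ⊥ := by
  intro hS
  choose v hv using fun i => exists_cj_mem_systemNormalizer (S i)
  obtain ⟨t, ht0, ht⟩ := exists_ne_zero hn
    (fun i : Fin n => if h : (i : ℕ) < m then v ⟨i, h⟩ else v ⟨0, hm⟩)
  have hmem : cj t (v ⟨0, hm⟩) ∈ ⨅ i : Fin m, systemNormalizer (S i) := by
    rw [Subgroup.mem_iInf]
    intro i
    have h := hv i t
    have h1 := ht ⟨i, by omega⟩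
    simp only [Fin.is_lt, dif_pos, hm, Fin.eta] at h1
    have h' : cj t (v i) = cj t (v ⟨0, hm⟩) := by
      simp only [cj, h1]
    rwa [h'] at h
  rw [hS, Subgroup.mem_bot] at hmem
  exact ht0 (congrArg HG.t hmem)

end HG

end Pool.Agent.Helper10.SysNorm
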