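import Mathlib

set_option autoImplicit false

/-!
Definitions for MP_c7d465_al: Sylow systems, system normalizers and the hypercentre of a group.
-/

namespace Pool.Agent.Helper10.SysNorm

open scoped Pointwise

/-- A Sylow system (Sylow basis) of the finite group `G`: exactly one Sylow `p`-subgroup for each
prime `p` dividing the order of `G`, these subgroups being pairwise permutable. -/
structure SylowSystem (G : Type) [Group G] where
  /-- the chosen Sylow `p`-subgroup, for each prime divisor `p` of the order of `G` -/
  sylow : ∀ p : (Nat.card G).primeFactors, Sylow (p : ℕ) G
  /-- the product sets commute: `S_p S_q = S_q S_p` -/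
  permute : ∀ p q : (Nat.card G).primeFactors,
    ((sylow p : Subgroup G) : Set G) * ((sylow q : Subgroup G) : Set G) =
      ((sylow q : Subgroup G) : Set G) * ((sylow p : Subgroup G) : Set G)

/-- The system normalizer of a Sylow system: the intersection of the normalizers of its members. -/
def systemNormalizer {G : Type} [Group G] (S : SylowSystem G) : Subgroup G :=
  ⨅ p : (Nat.card G).primeFactors, Subgroup.normalizer ((S.sylow p : Subgroup G) : Set G)

/-- The hypercentre of `G`: the union of the upper central series (for a finite group this is the
terminal member of the series). -/
def hypercentre (G : Type) [Group G] : Subgroup G :=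
  ⨆ i : ℕ, Subgroup.upperCentralSeries G i

end Pool.Agent.Helper10.SysNorm
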